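import Pool.Agent.Work.MP_b4417b_gt.Final

set_option autoImplicit false

namespace Pool.Agent.Results.MP_b4417b_gt.CubesNoSigmaDisjoint

open Pool.Agent.Work.MP_b4417b_gt

/-- For every uncountable strong limit cardinal `κ` of countable cofinality the Cantor cube with `κ`
factors is D-separable and has no sigma-disjoint pi-base.  In particular it is false that a compact
Hausdorff space is D-separable if and only if it has a sigma-disjoint pi-base. -/
theorem result :
    (∀ κ : Cardinal.{0}, κ.IsStrongLimit → Cardinal.aleph0 < κ → κ.ord.cof = Cardinal.aleph0 →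
      ∀ ι : Type, Cardinal.mk ι = κ →
        DSep (ι → Bool) ∧ ¬ SigmaDisjointPiBase (ι → Bool)) ∧
    ¬ ∀ (X : Type) [TopologicalSpace X] [CompactSpace X] [T2Space X],
        (DSep X ↔ SigmaDisjointPiBase X) :=
  ⟨fun κ hκ hκ0 hcof ι hι =>
    ⟨cube_dsep κ hκ hκ0 hcof ι hι, cube_no_sigma (by rw [hι]; exact hκ0)⟩, hypothesis_fails⟩

end Pool.Agent.Results.MP_b4417b_gt.CubesNoSigmaDisjoint
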