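import Pool.Agent.Work.MP_b4417b_gt.Final

set_option autoImplicit false

namespace Pool.Agent.Results.MP_b4417b_gt.PowersStrongLimit

open Pool.Agent.Work.MP_b4417b_gt

/-- Let `κ` be an uncountable strong limit cardinal and `X` a compact Hausdorff space with more than
one point and a pi-base of cardinality less than `κ`.  Then the power of `X` with `κ` factors is
D-separable if and only if it contains `cf(κ)` pairwise disjoint nonempty open sets.  In particular
the Cantor cube with `κ` factors is D-separable if and only if `κ` has countable cofinality. -/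
theorem result (κ : Cardinal.{0}) (hκ : κ.IsStrongLimit) (hκ0 : Cardinal.aleph0 < κ)
    (ι : Type) (hι : Cardinal.mk ι = κ) :
    (∀ (X : Type) [TopologicalSpace X] [CompactSpace X] [T2Space X] [Nontrivial X]
      (B : Set (Set X)), IsPiBase B → Cardinal.mk B < κ →
      (DSep (ι → X) ↔
        ∃ 𝒰 : Set (Set (ι → X)), (∀ u ∈ 𝒰, IsOpen u ∧ u.Nonempty) ∧
          𝒰.PairwiseDisjoint id ∧ Cardinal.mk 𝒰 = κ.ord.cof)) ∧
    (DSep (ι → Bool) ↔ κ.ord.cof = Cardinal.aleph0) :=
  ⟨fun _ _ _ _ _ B hB hBc => powers_iff κ hκ hκ0 hι B hB hBc, cube_iff κ hκ hκ0 ι hι⟩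

end Pool.Agent.Results.MP_b4417b_gt.PowersStrongLimit
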