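import Pool.Agent.Work.MP_b4417b_gt.Final

set_option autoImplicit false

namespace Pool.Agent.Results.MP_b4417b_gt.StratifiedProducts

open Pool.Agent.Work.MP_b4417b_gt

/-- Stratified Hausdorff spaces are D-separable; finite products of stratified spaces are
stratified; spaces with a sigma-disjoint pi-base are stratified; a power of a compact Hausdorff
space as in the third clause is D-separable if and only if it is stratified. -/
theorem result :
    (∀ (X : Type) [TopologicalSpace X] [T2Space X], Stratified X → DSep X) ∧
    (∀ (X Y : Type) [TopologicalSpace X] [TopologicalSpace Y],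
      Stratified X → Stratified Y → Stratified (X × Y)) ∧
    (∀ (X : Type) [TopologicalSpace X], SigmaDisjointPiBase X → Stratified X) ∧
    (∀ (X ι : Type) [TopologicalSpace X] [CompactSpace X] [T2Space X] [Nontrivial X]
      (κ : Cardinal.{0}) (B : Set (Set X)), κ.IsStrongLimit → Cardinal.aleph0 < κ →
      Cardinal.mk ι = κ → IsPiBase B → Cardinal.mk B < κ →
      (DSep (ι → X) ↔ Stratified (ι → X))) := by
  refine ⟨fun X _ _ h => strat_dsep h, fun X Y _ _ hX hY => strat_prod hX hY,
    fun X _ h => strat_of_sigma h, ?_⟩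
  intro X ι _ _ _ _ κ B hκ hκ0 hι hB hBc
  refine ⟨fun h => ?_, fun h => strat_dsep h⟩
  obtain ⟨𝒰, hU, hd, hc⟩ := (powers_iff κ hκ hκ0 hι B hB hBc).1 h
  exact stratified_of_cellular κ hκ hκ0 hι B hB hBc 𝒰 hU hd hc

end Pool.Agent.Results.MP_b4417b_gt.StratifiedProducts
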