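import Pool.Agent.Work.MP_b4417b_gt.Tree
import Pool.Agent.Work.MP_b4417b_gt.ProdSigma

set_option autoImplicit false

namespace Pool.Agent.Results.MP_b4417b_gt.TreePiBase

open Pool.Agent.Work.MP_b4417b_gt

/-- Let `X` be a D-separable `T1` space with a pi-base which is a tree under reverse inclusion.
Then `X` has a sigma-disjoint pi-base, and `X × Y` is D-separable for every D-separable `Y`. -/
theorem result (X : Type) [TopologicalSpace X] [T1Space X] (T : Set (Set X))
    (hT : IsTreePiBase T) (hX : DSep X) :
    SigmaDisjointPiBase X ∧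
      ∀ (Y : Type) [TopologicalSpace Y], DSep Y → DSep (X × Y) :=
  ⟨tree_sigma T hT hX, fun _ _ hY => prod_sigma (tree_sigma T hT hX) hY⟩

end Pool.Agent.Results.MP_b4417b_gt.TreePiBase
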